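import Pool.Agent.H240.SG.Fin2

/-!
# Complete localization of eigenfunctions on surfaces with ergodic geodesic flow

There are a closed connected surface `M` and a smooth one-parameter family of conformal metrics
`exp (s h) g`, `|s| < s₀`, on `M`, all of them of nonpositive curvature and with ergodic geodesic flow,
such that for almost every `s` the following holds: every ordered orthonormal basis `u 0, u 1, …` of
smooth real eigenfunctions of the Laplacian has a set `J` of indices along which the eigenfunctions are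
completely localized in a closed flat cylinder `Z ≠ M`: the mass of `u j` on every compact set which does
not meet `Z` tends to zero. The set `J` is large: the number of the `j ∈ J` with eigenvalue at most `Λ` is
not `O (√Λ)`. Here `h ≥ 0` is smooth and vanishes exactly on `Z`, and the curvature is negative outside
of `Z`. So ergodicity of the geodesic flow does not even imply that every quantum limit has full support:
every weak limit of the measures `u j ^ 2`, `j ∈ J`, is a probability measure on `Z`.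

How a surface is described. `Ω` is an open set of the plane with the smooth conformal metric
`exp (2 φ) |dz|²`, and `pr : Ω → M` is a continuous, open, surjective and locally injective map onto
the compact metric space `M`; points with the same image are related by a holomorphic local isometry
over `M`. So `M` is a closed surface and the metric descends to `M`. The unit vectors at the points of
`Ω` are the pairs `(z, θ)`, the vector `exp (- φ z) exp (i θ)` at `z`; `P` is the unit tangent bundle of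
`M`: two such pairs have the same image under `q` if and only if a local isometry over `M` maps one to
the other. (The bundle `P` of unit vectors and the map `q` are the same for all the metrics of the
family, because these are conformal.)

Ingredients of the proof. The surface, the ergodicity of its geodesic flow, the variational theory of the
eigenvalues and elliptic regularity are taken from the library (`Pool.Graph.R_seed8.Y262`,
`Pool.Graph.R_seed8.Y264` and the files they import). New are the following parts, see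
`Pool/Agent/H240/SC` and `Pool/Agent/H240/SG`. (1) The metrics `exp (κ + s h) g'` are considered for
complex `s = sr + i si` with a small imaginary part `si`; then the coefficient of the equation
`Δ u = E exp (κ + s h) u` is absorbing outside of the cylinder. (2) For a fixed `si > 0` the solutions of
the damped equation with the source `sin (π (k + 1) (x - x1) / (x2 - x1)) sin (n y)` converge, as
`n → ∞`, to the solutions of the problem in the cylinder with Dirichlet conditions. (3) By Cauchy's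
theorem in `s` the average over the real `s` of the resolvent in a window around
`n² + (π (k + 1) / (x2 - x1))²` is computed; so for all `s` in an interval except for a set of small
measure there is an eigenvalue in the window. (4) The eigenvalues in a window for which the mass of the
eigenfunction outside the cylinder is not small move fast with `s`, so by the Weyl bound they are in the
window only for a small set of `s` (variation of the eigenvalues). So for most `s` there is a localized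
eigenfunction in the window. (5) Averages over `n`, and a count over `k`. (6) Green's formula shows that
smooth eigenfunctions are weak ones, so the theorem holds for every smooth basis.
-/

set_option autoImplicit false

open Set Filter Topology MeasureTheory
open scoped ContDiff

noncomputable section

namespace Pool.Agent.Results.MP_ed6ab2_an.CompleteLocalization

/-- the partial derivative with respect to `x` -/
def px (φ : ℂ → ℝ) (z : ℂ) : ℝ := fderiv ℝ φ z 1

/-- the partial derivative with respect to `y` -/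
def py (φ : ℂ → ℝ) (z : ℂ) : ℝ := fderiv ℝ φ z Complex.I

/-- the nonnegative Laplace-Beltrami operator of the metric `exp (2 φ) |dz|²` -/
def lapl (φ v : ℂ → ℝ) (z : ℂ) : ℝ := -(Real.exp (-2 * φ z) * (px (px v) z + py (py v) z))

/-- the Gauss curvature of the metric `exp (2 φ) |dz|²` -/
def curvature (φ : ℂ → ℝ) (z : ℂ) : ℝ := lapl φ φ z

section

variable {M P : Type}

/-- `γ` is a holomorphic local isometry on the ball around `z` with radius `r`, over the surface, and
`γ z = w` -/
def LocIso (Ω : Set ℂ) (φ : ℂ → ℝ) (pr : ℂ → M) (r : ℝ) (γ : ℂ → ℂ) (z w : ℂ) : Prop :=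
  0 < r ∧ Metric.ball z r ⊆ Ω ∧ DifferentiableOn ℂ γ (Metric.ball z r) ∧ γ z = w ∧
    ∀ ζ ∈ Metric.ball z r, γ ζ ∈ Ω ∧ pr (γ ζ) = pr ζ ∧ deriv γ ζ ≠ 0 ∧
      φ (γ ζ) + Real.log ‖deriv γ ζ‖ = φ ζ

/-- `M` is a surface with a Riemannian metric which is covered by means of `pr` by the plane domain
`Ω` with the smooth metric `exp (2 φ) |dz|²` -/
structure IsSurface [TopologicalSpace M] (Ω : Set ℂ) (φ : ℂ → ℝ) (pr : ℂ → M) : Prop where
  domain : IsOpen Ω
  smooth : ContDiffOn ℝ ∞ φ Ω
  cont : ContinuousOn pr Ω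
  open_map : ∀ O : Set ℂ, IsOpen O → O ⊆ Ω → IsOpen (pr '' O)
  surj : pr '' Ω = univ
  loc_inj : ∀ z ∈ Ω, ∃ r : ℝ, 0 < r ∧ Metric.ball z r ⊆ Ω ∧ InjOn pr (Metric.ball z r)
  iso : ∀ z ∈ Ω, ∀ w ∈ Ω, pr z = pr w → ∃ (r : ℝ) (γ : ℂ → ℂ), LocIso Ω φ pr r γ z w

/-- the unit vectors `(z, θ)` (the vector `exp (- φ z) exp (i θ)` at `z`) at the points of `Ω` -/
def UV (Ω : Set ℂ) : Set (ℂ × ℝ) := {p | p.1 ∈ Ω}

/-- `P` is the unit tangent bundle of the surface and `q` maps the unit vectors at the points of `Ω`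
to `P`: two unit vectors have the same image if and only if a local isometry over the surface maps one
to the other -/
structure IsUnitTangent [TopologicalSpace P] (Ω : Set ℂ) (φ : ℂ → ℝ) (pr : ℂ → M)
    (q : ℂ × ℝ → P) : Prop where
  cont : ContinuousOn q (UV Ω)
  open_map : ∀ O : Set (ℂ × ℝ), IsOpen O → O ⊆ UV Ω → IsOpen (q '' O)
  surj : q '' UV Ω = univ
  rel : ∀ p ∈ UV Ω, ∀ p' ∈ UV Ω, (q p = q p' ↔ ∃ (r : ℝ) (γ : ℂ → ℂ),
    LocIso Ω φ pr r γ p.1 p'.1 ∧
      Complex.exp (p'.2 * Complex.I) * ‖deriv γ p.1‖ = Complex.exp (p.2 * Complex.I) * deriv γ p.1)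

/-- `μ` is the area of the surface -/
def IsAreaM [MeasurableSpace M] (Ω : Set ℂ) (φ : ℂ → ℝ) (pr : ℂ → M) (μ : Measure M) : Prop :=
  ∀ B : Set ℂ, MeasurableSet B → B ⊆ Ω → InjOn pr B →
    μ (pr '' B) = ∫⁻ z in B, ENNReal.ofReal (Real.exp (2 * φ z))

/-- `m` is the Liouville measure on the unit tangent bundle -/
def IsLiouville [MeasurableSpace P] (Ω : Set ℂ) (φ : ℂ → ℝ) (q : ℂ × ℝ → P) (m : Measure P) :
    Prop :=
  ∀ B : Set (ℂ × ℝ), MeasurableSet B → B ⊆ UV Ω → InjOn q B →
    m (q '' B) = ∫⁻ p in B, ENNReal.ofReal (Real.exp (2 * φ p.1))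

/-- the geodesic vector field: `z' = exp (- φ) exp (i θ)`,
`θ' = exp (- φ) (- φ_x sin θ + φ_y cos θ)` -/
def geod (φ : ℂ → ℝ) (p : ℂ × ℝ) : ℂ × ℝ :=
  (⟨Real.exp (-φ p.1) * Real.cos p.2, Real.exp (-φ p.1) * Real.sin p.2⟩,
    Real.exp (-φ p.1) * (-(px φ p.1) * Real.sin p.2 + py φ p.1 * Real.cos p.2))

/-- `F` is the geodesic flow (it is complete and smooth) -/
structure IsGeodesicFlow (Ω : Set ℂ) (φ : ℂ → ℝ) (F : ℝ → ℂ × ℝ → ℂ × ℝ) : Prop where
  maps : ∀ t, ∀ p ∈ UV Ω, F t p ∈ UV Ω
  zero : ∀ p ∈ UV Ω, F 0 p = p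
  ode : ∀ t, ∀ p ∈ UV Ω, HasDerivAt (fun τ => F τ p) (geod φ (F t p)) t
  smooth : ContDiffOn ℝ ∞ (fun a : ℝ × (ℂ × ℝ) => F a.1 a.2) {a | a.2 ∈ UV Ω}

/-- the geodesic flow on `P` is ergodic with respect to `m`: every invariant measurable set is null or
has a null complement -/
def IsErgodic [MeasurableSpace P] (Ω : Set ℂ) (q : ℂ × ℝ → P) (F : ℝ → ℂ × ℝ → ℂ × ℝ)
    (m : Measure P) : Prop :=
  ∀ A : Set P, MeasurableSet A → (∀ t, ∀ p ∈ UV Ω, (q (F t p) ∈ A ↔ q p ∈ A)) →
    m A = 0 ∨ m Aᶜ = 0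

/-- `u` is a smooth real eigenfunction of the Laplacian of the surface with the eigenvalue `lam` -/
def IsEigenfunction (Ω : Set ℂ) (φ : ℂ → ℝ) (pr : ℂ → M) (lam : ℝ) (u : M → ℝ) : Prop :=
  ContDiffOn ℝ ∞ (fun z => u (pr z)) Ω ∧
    ∀ z ∈ Ω, lapl φ (fun z => u (pr z)) z = lam * u (pr z)

/-- `u 0, u 1, …` is an orthonormal basis of `L²` of smooth real eigenfunctions of the Laplacian of the
surface, ordered so that the eigenvalues `lam 0 ≤ lam 1 ≤ …` increase; the last condition says that the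
span of the functions `u j` is dense in `L²` -/
structure IsEigenbasis [MeasurableSpace M] (Ω : Set ℂ) (φ : ℂ → ℝ) (pr : ℂ → M) (μ : Measure M)
    (u : ℕ → M → ℝ) (lam : ℕ → ℝ) : Prop where
  eig : ∀ j, IsEigenfunction Ω φ pr (lam j) (u j)
  mono : Monotone lam
  orth : ∀ i j, ∫ x, u i x * u j x ∂μ = if i = j then 1 else 0
  total : ∀ f : M → ℝ, MemLp f 2 μ → (∀ j, ∫ x, f x * u j x ∂μ = 0) → f =ᵐ[μ] 0

/-- the closed set `Z` is a closed flat cylinder `[0, L] × (ℝ / 2πℤ)` in the surface: `pr` maps a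
strip `-δ < Re z < L + δ` modulo `2πi` injectively to the surface, `Z` is the image of the closed strip
`0 ≤ Re z ≤ L`, and there the metric is `|dz|²` -/
structure IsFlatCylinder (Ω : Set ℂ) (φ : ℂ → ℝ) (pr : ℂ → M) (L : ℝ) (Z : Set M) : Prop where
  pos : 0 < L
  nbhd : ∃ δ : ℝ, 0 < δ ∧ {z : ℂ | -δ < z.re ∧ z.re < L + δ} ⊆ Ω ∧
    ∀ z : ℂ, -δ < z.re → z.re < L + δ → ∀ w : ℂ, -δ < w.re → w.re < L + δ →
      (pr z = pr w ↔ ∃ n : ℤ, w = z + n * (2 * Real.pi * Complex.I))
  flat : ∀ z : ℂ, 0 ≤ z.re → z.re ≤ L → φ z = 0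
  image : Z = pr '' {z | 0 ≤ z.re ∧ z.re ≤ L}

/-- the functions `u j`, `j ∈ J`, are completely localized in `Z`: the mass of `u j` on every compact set
which does not meet `Z` tends to zero as `j → ∞` in `J` -/
def LocalizedAlong [TopologicalSpace M] [MeasurableSpace M] (μ : Measure M) (u : ℕ → M → ℝ)
    (J : Set ℕ) (Z : Set M) : Prop :=
  ∀ K : Set M, IsCompact K → Disjoint K Z →
    Tendsto (fun j => ∫ x in K, (u j x) ^ 2 ∂μ) (atTop ⊓ 𝓟 J) (𝓝 0)

end

/-- the number of the indices `j` in `J` with `lam j ≤ Λ` -/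
def number (lam : ℕ → ℝ) (J : Set ℕ) (Λ : ℝ) : ℕ := {j | j ∈ J ∧ lam j ≤ Λ}.ncard

/-- **Complete localization.** There are a closed connected surface `M` (with the unit tangent bundle
`P`), a smooth family of Riemannian metrics `φ s`, `s` real, with `exp (2 φ s) = exp (s h) exp (2 φ 0)`
for a smooth function `h ≥ 0`, and a closed set `Z ≠ M` on which `h` vanishes, outside of which `h > 0`,
such that for `|s| < s₀`: the curvature is nonpositive, and negative outside of `Z`; `Z` is a closed flat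
cylinder; the geodesic flow is ergodic with respect to the Liouville measure; there is an ordered
orthonormal basis of smooth real eigenfunctions of the Laplacian. For almost every `s` with `|s| < s₀`
every such basis `u j` (with the eigenvalues `lam j`) has a set `J` of indices for which the
eigenfunctions `u j`, `j ∈ J`, are completely localized in `Z`, and for which the number of the `j ∈ J`
with `lam j ≤ Λ` is not `O (√Λ)`. -/
theorem result : ∃ (M P : Type) (_ : MetricSpace M) (_ : CompactSpace M) (_ : ConnectedSpace M)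
    (_ : MeasurableSpace M) (_ : BorelSpace M) (_ : MetricSpace P) (_ : CompactSpace P)
    (_ : MeasurableSpace P) (_ : BorelSpace P) (Ω : Set ℂ) (φ : ℝ → ℂ → ℝ) (pr : ℂ → M)
    (q : ℂ × ℝ → P) (μ : ℝ → Measure M) (m : ℝ → Measure P) (F : ℝ → ℝ → ℂ × ℝ → ℂ × ℝ)
    (h : M → ℝ) (Z : Set M) (L s₀ : ℝ),
    0 < s₀ ∧ ContDiffOn ℝ ∞ (fun z => h (pr z)) Ω ∧ (∀ x, 0 ≤ h x) ∧ (∀ x, h x = 0 ↔ x ∈ Z) ∧
    Z ≠ univ ∧ (∀ s, ∀ z ∈ Ω, φ s z = φ 0 z + s / 2 * h (pr z)) ∧
    (∀ s, |s| < s₀ → IsSurface Ω (φ s) pr ∧ IsUnitTangent Ω (φ s) pr q ∧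
      IsAreaM Ω (φ s) pr (μ s) ∧ IsLiouville Ω (φ s) q (m s) ∧ IsGeodesicFlow Ω (φ s) (F s) ∧
      (∀ z ∈ Ω, curvature (φ s) z ≤ 0) ∧ (∀ z ∈ Ω, pr z ∉ Z → curvature (φ s) z < 0) ∧
      IsFlatCylinder Ω (φ s) pr L Z ∧ IsErgodic Ω q (F s) (m s) ∧
      ∃ (u : ℕ → M → ℝ) (lam : ℕ → ℝ), IsEigenbasis Ω (φ s) pr (μ s) u lam) ∧
    ∀ᵐ s : ℝ, |s| < s₀ → ∀ (u : ℕ → M → ℝ) (lam : ℕ → ℝ), IsEigenbasis Ω (φ s) pr (μ s) u lam →
      ∃ J : Set ℕ, LocalizedAlong (μ s) u J Z ∧
        ∀ C : ℝ, ∃ᶠ Λ : ℝ in atTop, C * Real.sqrt Λ < number lam J Λ := by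
  obtain ⟨M, P, i1, i2, i3, i4, i5, i6, i7, i8, i9, Ω, φ, pr, q, μ, m, F, h, L, δ, s₀, hs₀, hL, hδ,
    hsub, hinj, hflat, hhs, hhn, hhz, hZ, hφ, hfam, hae⟩ := Pool.Agent.H240.SG.fin_main
  refine ⟨M, P, i1, i2, i3, i4, i5, i6, i7, i8, i9, Ω, φ, pr, q, μ, m, F, h,
    pr '' {z | 0 ≤ z.re ∧ z.re ≤ L}, L, s₀, hs₀, hhs, hhn, hhz, hZ, hφ, ?_, ?_⟩
  · intro s hs
    obtain ⟨hUT, hA, hm, hG, hK, hK0, hE, u, lam, hu⟩ := hfam s hs
    refine ⟨⟨hUT.opn, hUT.smooth, hUT.contp, hUT.opnp, hUT.surjp, hUT.injp, ?_⟩,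
      ⟨hUT.contq, hUT.opnq, hUT.surjq, ?_⟩, hA, hm, ⟨hG.maps, hG.zero, hG.ode, hG.smooth⟩, hK,
      fun z hz hzZ => lt_of_le_of_ne (hK z hz) fun h0 => hzZ (hK0 z hz h0),
      ⟨hL, ⟨δ, hδ, hsub, fun z hz1 hz2 w hw1 hw2 => hinj z ⟨hz1, hz2⟩ w ⟨hw1, hw2⟩⟩, ?_, rfl⟩, hE,
      u, lam, ⟨hu.eig, hu.mono, hu.orth, hu.total⟩⟩
    · intro z hz w hw h
      obtain ⟨θ', r, γ, h1, h2, h3, h4, h5, -⟩ := hUT.deck z hz w hw h 0
      exact ⟨r, γ, h1, h2, h3, h4, h5⟩
    · intro p hp p' hp'
      rw [hUT.rel p hp p' hp']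
      constructor
      · rintro ⟨r, γ, h1, h2, h3, h4, h5, h6⟩
        exact ⟨r, γ, ⟨h1, h2, h3, h4, h5⟩, h6⟩
      · rintro ⟨r, γ, ⟨h1, h2, h3, h4, h5⟩, h6⟩
        exact ⟨r, γ, h1, h2, h3, h4, h5, h6⟩
    · intro z hz1 hz2
      have hz : z ∈ Ω := hsub ⟨by linarith, by linarith⟩
      have h0 : h (pr z) = 0 := (hhz (pr z)).2 ⟨z, ⟨hz1, hz2⟩, rfl⟩
      rw [hφ s z hz, hflat z hz1 hz2, h0]
      ring
  · filter_upwards [hae] with s hs hss u lam hu
    obtain ⟨J, hJ1, hJ2⟩ := hs hss u lam ⟨hu.eig, hu.mono, hu.orth, hu.total⟩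
    exact ⟨J, hJ2, hJ1⟩

end Pool.Agent.Results.MP_ed6ab2_an.CompleteLocalization
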