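import Pool.Agent.H240.QX.Final

/-!
# A closed surface with ergodic geodesic flow and many exceptional eigenfunctions

There are a closed connected surface `M` with a smooth metric of nonpositive curvature and ergodic
geodesic flow, and an ordered orthonormal basis `u 0, u 1, …` of `L²(M)` of smooth real eigenfunctions of
the Laplacian with the eigenvalues `lam 0 ≤ lam 1 ≤ …`, such that the exceptional set in Shnirelman's
theorem is not small: if `J` is any set of indices along which the eigenfunctions are equidistributed,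
then for every `C` and for a set of scales `k` of upper density one more than `C 2 ^ k` of the indices
`j` with `lam j ≤ 4 ^ k` do not belong to `J`. So the number of exceptional eigenvalues up to `Λ` is not
`O (√Λ)`.

How a surface is described. `Ω` is an open set of the plane with a smooth conformal metric
`exp (2 φ) |dz|²`, and `pr : Ω → M` is a continuous, open, surjective and locally injective map onto
the compact metric space `M`; points with the same image are related by a holomorphic local isometry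
over `M`. So `M` is a closed surface and the metric descends to `M`. The unit vectors at the points of
`Ω` are the pairs `(z, θ)`, the vector `exp (- φ z) exp (i θ)` at `z`; `P` is the unit tangent bundle of
`M`: two such pairs have the same image under `q` if and only if a local isometry over `M` maps one to
the other.

Ingredients of the proof. The surface, its ergodicity, the flat cylinder in it, the conformal family
`exp (s h) g`, the variation of the eigenvalues with `s` and the smoothness of the eigenfunctions are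
taken from the library (`Pool.Graph.R_seed8.Y262` and the files it imports). New are the following
parts, see `Pool/Agent/H240/QX`. (1) For almost every `s` there is a set of scales `k` of upper density
one for which the windows `[n² - r, n² + r]`, `2 ^ k ≤ n < 2 ^ (k + 1)`, contain on average a bounded
number of eigenvalues which decrease in `s` with a relative speed bounded below (an average over the
logarithmic scale). (2) For every `q` there are `q` functions `χ` with disjoint supports in `(0, L)`; for each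
`n` the `q` quasimodes `χ (x) sin (n y)` are orthonormal and most of their mass lies in the eigenspaces of
the window around `n²`. Equidistributed eigenfunctions have branches of speed bounded below, so by (1)
many windows contain boundedly many of them, and by an argument with ordinary differential equations
(library) their coefficients with the quasimodes tend to zero; so the exceptional eigenfunctions in such
a window carry most of the mass of `q` orthonormal functions, and there are at least `q / 2` of them.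
(3) The argument is applied to the functions which are odd with respect to the reflection of the
surface; the basis consists of even and odd eigenfunctions (existence is proved). (4) Counting over the
windows in a dyadic block.
-/

set_option autoImplicit false

open Set Filter Topology MeasureTheory
open scoped ContDiff

noncomputable section

namespace Pool.Agent.Results.MP_ed6ab2_an.ErgodicManyExceptional

/-- the partial derivative with respect to `x` -/
def px (φ : ℂ → ℝ) (z : ℂ) : ℝ := fderiv ℝ φ z 1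

/-- the partial derivative with respect to `y` -/
def py (φ : ℂ → ℝ) (z : ℂ) : ℝ := fderiv ℝ φ z Complex.I

/-- the nonnegative Laplace-Beltrami operator of the metric `exp (2 φ) |dz|²` -/
def lapl (φ v : ℂ → ℝ) (z : ℂ) : ℝ := -(Real.exp (-2 * φ z) * (px (px v) z + py (py v) z))

/-- the Gauss curvature of the metric `exp (2 φ) |dz|²` -/
def curvature (φ : ℂ → ℝ) (z : ℂ) : ℝ := lapl φ φ z

section

variable {M P : Type}

/-- `γ` is a holomorphic local isometry on the ball around `z` with radius `r`, over the surface, and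
`γ z = w` -/
def LocIso (Ω : Set ℂ) (φ : ℂ → ℝ) (pr : ℂ → M) (r : ℝ) (γ : ℂ → ℂ) (z w : ℂ) : Prop :=
  0 < r ∧ Metric.ball z r ⊆ Ω ∧ DifferentiableOn ℂ γ (Metric.ball z r) ∧ γ z = w ∧
    ∀ ζ ∈ Metric.ball z r, γ ζ ∈ Ω ∧ pr (γ ζ) = pr ζ ∧ deriv γ ζ ≠ 0 ∧
      φ (γ ζ) + Real.log ‖deriv γ ζ‖ = φ ζ

/-- `M` is a surface with a Riemannian metric which is covered by means of `pr` by the plane domain
`Ω` with the smooth metric `exp (2 φ) |dz|²` -/
structure IsSurface [TopologicalSpace M] (Ω : Set ℂ) (φ : ℂ → ℝ) (pr : ℂ → M) : Prop where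
  domain : IsOpen Ω
  smooth : ContDiffOn ℝ ∞ φ Ω
  cont : ContinuousOn pr Ω
  open_map : ∀ O : Set ℂ, IsOpen O → O ⊆ Ω → IsOpen (pr '' O)
  surj : pr '' Ω = univ
  loc_inj : ∀ z ∈ Ω, ∃ r : ℝ, 0 < r ∧ Metric.ball z r ⊆ Ω ∧ InjOn pr (Metric.ball z r)
  iso : ∀ z ∈ Ω, ∀ w ∈ Ω, pr z = pr w → ∃ (r : ℝ) (γ : ℂ → ℂ), LocIso Ω φ pr r γ z w

/-- the unit vectors `(z, θ)` (the vector `exp (- φ z) exp (i θ)` at `z`) at the points of `Ω` -/
def UV (Ω : Set ℂ) : Set (ℂ × ℝ) := {p | p.1 ∈ Ω}

/-- `P` is the unit tangent bundle of the surface and `q` maps the unit vectors at the points of `Ω`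
to `P`: two unit vectors have the same image if and only if a local isometry over the surface maps one
to the other -/
structure IsUnitTangent [TopologicalSpace P] (Ω : Set ℂ) (φ : ℂ → ℝ) (pr : ℂ → M)
    (q : ℂ × ℝ → P) : Prop where
  cont : ContinuousOn q (UV Ω)
  open_map : ∀ O : Set (ℂ × ℝ), IsOpen O → O ⊆ UV Ω → IsOpen (q '' O)
  surj : q '' UV Ω = univ
  rel : ∀ p ∈ UV Ω, ∀ p' ∈ UV Ω, (q p = q p' ↔ ∃ (r : ℝ) (γ : ℂ → ℂ),
    LocIso Ω φ pr r γ p.1 p'.1 ∧
      Complex.exp (p'.2 * Complex.I) * ‖deriv γ p.1‖ = Complex.exp (p.2 * Complex.I) * deriv γ p.1)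

/-- `μ` is the area of the surface -/
def IsAreaM [MeasurableSpace M] (Ω : Set ℂ) (φ : ℂ → ℝ) (pr : ℂ → M) (μ : Measure M) : Prop :=
  ∀ B : Set ℂ, MeasurableSet B → B ⊆ Ω → InjOn pr B →
    μ (pr '' B) = ∫⁻ z in B, ENNReal.ofReal (Real.exp (2 * φ z))

/-- `m` is the Liouville measure on the unit tangent bundle -/
def IsLiouville [MeasurableSpace P] (Ω : Set ℂ) (φ : ℂ → ℝ) (q : ℂ × ℝ → P) (m : Measure P) :
    Prop :=
  ∀ B : Set (ℂ × ℝ), MeasurableSet B → B ⊆ UV Ω → InjOn q B →
    m (q '' B) = ∫⁻ p in B, ENNReal.ofReal (Real.exp (2 * φ p.1))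

/-- the geodesic vector field: `z' = exp (- φ) exp (i θ)`,
`θ' = exp (- φ) (- φ_x sin θ + φ_y cos θ)` -/
def geod (φ : ℂ → ℝ) (p : ℂ × ℝ) : ℂ × ℝ :=
  (⟨Real.exp (-φ p.1) * Real.cos p.2, Real.exp (-φ p.1) * Real.sin p.2⟩,
    Real.exp (-φ p.1) * (-(px φ p.1) * Real.sin p.2 + py φ p.1 * Real.cos p.2))

/-- `F` is the geodesic flow (it is complete and smooth) -/
structure IsGeodesicFlow (Ω : Set ℂ) (φ : ℂ → ℝ) (F : ℝ → ℂ × ℝ → ℂ × ℝ) : Prop where
  maps : ∀ t, ∀ p ∈ UV Ω, F t p ∈ UV Ω
  zero : ∀ p ∈ UV Ω, F 0 p = p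
  ode : ∀ t, ∀ p ∈ UV Ω, HasDerivAt (fun τ => F τ p) (geod φ (F t p)) t
  smooth : ContDiffOn ℝ ∞ (fun a : ℝ × (ℂ × ℝ) => F a.1 a.2) {a | a.2 ∈ UV Ω}

/-- the geodesic flow on `P` is ergodic with respect to `m`: every invariant measurable set is null or
has a null complement -/
def IsErgodic [MeasurableSpace P] (Ω : Set ℂ) (q : ℂ × ℝ → P) (F : ℝ → ℂ × ℝ → ℂ × ℝ)
    (m : Measure P) : Prop :=
  ∀ A : Set P, MeasurableSet A → (∀ t, ∀ p ∈ UV Ω, (q (F t p) ∈ A ↔ q p ∈ A)) →
    m A = 0 ∨ m Aᶜ = 0

/-- `u` is a smooth real eigenfunction of the Laplacian of the surface with the eigenvalue `lam` -/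
def IsEigenfunction (Ω : Set ℂ) (φ : ℂ → ℝ) (pr : ℂ → M) (lam : ℝ) (u : M → ℝ) : Prop :=
  ContDiffOn ℝ ∞ (fun z => u (pr z)) Ω ∧
    ∀ z ∈ Ω, lapl φ (fun z => u (pr z)) z = lam * u (pr z)

/-- `u 0, u 1, …` is an orthonormal basis of `L²` of smooth real eigenfunctions of the Laplacian of the
surface, ordered so that the eigenvalues `lam 0 ≤ lam 1 ≤ …` increase; the last condition says that the
span of the functions `u j` is dense in `L²` -/
structure IsEigenbasis [MeasurableSpace M] (Ω : Set ℂ) (φ : ℂ → ℝ) (pr : ℂ → M) (μ : Measure M)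
    (u : ℕ → M → ℝ) (lam : ℕ → ℝ) : Prop where
  eig : ∀ j, IsEigenfunction Ω φ pr (lam j) (u j)
  mono : Monotone lam
  orth : ∀ i j, ∫ x, u i x * u j x ∂μ = if i = j then 1 else 0
  total : ∀ f : M → ℝ, MemLp f 2 μ → (∀ j, ∫ x, f x * u j x ∂μ = 0) → f =ᵐ[μ] 0

/-- the functions `u j`, `j ∈ J`, are equidistributed: `∫_O (u j)² → area (O) / area (M)` as `j → ∞` in
`J`, for every open set `O` with boundary of area zero -/
def EquidistributedAlong [TopologicalSpace M] [MeasurableSpace M] (μ : Measure M) (u : ℕ → M → ℝ)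
    (J : Set ℕ) : Prop :=
  ∀ O : Set M, IsOpen O → μ (frontier O) = 0 →
    Tendsto (fun j => ∫ x in O, (u j x) ^ 2 ∂μ) (atTop ⊓ 𝓟 J) (𝓝 (μ.real O / μ.real univ))

end

/-- the number of the indices `j` outside `J` with `lam j ≤ Λ` -/
def exceptional (lam : ℕ → ℝ) (J : Set ℕ) (Λ : ℝ) : ℕ := {j | j ∉ J ∧ lam j ≤ Λ}.ncard

/-- the set `S` of natural numbers has upper density one -/
def UpperDensityOne (S : Set ℕ) : Prop :=
  ∀ δ : ℝ, 0 < δ → ∃ᶠ K : ℕ in atTop, (1 - δ) * K ≤ ((S ∩ Iio K).ncard : ℝ)

/-- **The exceptional set in Shnirelman's theorem is not `O (√Λ)`.** There is a closed connected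
Riemannian surface `M` (covered by the plane domain `Ω` with the smooth metric `exp (2 φ) |dz|²`, with
the unit tangent bundle `P`, the area `μ`, the Liouville measure `m` and the geodesic flow `F`) of
nonpositive curvature whose geodesic flow is ergodic, and an ordered orthonormal basis of smooth real
eigenfunctions `u j` of the Laplacian with eigenvalues `lam j → ∞`, such that for every set `J` of
indices along which the eigenfunctions are equidistributed and for every `C`, the set of the scales `k`
for which more than `C 2 ^ k` indices `j` with `lam j ≤ 4 ^ k` do not belong to `J` has upper density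
one. -/
theorem result : ∃ (M P : Type) (_ : MetricSpace M) (_ : CompactSpace M) (_ : ConnectedSpace M)
    (_ : MeasurableSpace M) (_ : BorelSpace M) (_ : MetricSpace P) (_ : CompactSpace P)
    (_ : MeasurableSpace P) (_ : BorelSpace P) (Ω : Set ℂ) (φ : ℂ → ℝ) (pr : ℂ → M)
    (q : ℂ × ℝ → P) (μ : Measure M) (m : Measure P) (F : ℝ → ℂ × ℝ → ℂ × ℝ),
    IsSurface Ω φ pr ∧ IsUnitTangent Ω φ pr q ∧ IsAreaM Ω φ pr μ ∧ IsLiouville Ω φ q m ∧
    IsGeodesicFlow Ω φ F ∧ (∀ z ∈ Ω, curvature φ z ≤ 0) ∧ IsErgodic Ω q F m ∧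
    ∃ (u : ℕ → M → ℝ) (lam : ℕ → ℝ), IsEigenbasis Ω φ pr μ u lam ∧ Tendsto lam atTop atTop ∧
      ∀ J : Set ℕ, EquidistributedAlong μ u J → ∀ C : ℕ,
        UpperDensityOne {k | C * 2 ^ k < exceptional lam J (4 ^ k)} := by
  obtain ⟨M, P, i1, i2, i3, i4, i5, i6, i7, i8, i9, Ω, φ, pr, q, μ, m, F, hUT, hA, hL, hG, hK, hE, u,
    lam, hu, hmono, horth, htot, hlam, hbig⟩ := Pool.Agent.H240.QX.final3
  refine ⟨M, P, i1, i2, i3, i4, i5, i6, i7, i8, i9, Ω, φ, pr, q, μ, m, F,
    ⟨hUT.opn, hUT.smooth, hUT.contp, hUT.opnp, hUT.surjp, hUT.injp, ?_⟩,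
    ⟨hUT.contq, hUT.opnq, hUT.surjq, ?_⟩, hA, hL, ⟨hG.maps, hG.zero, hG.ode, hG.smooth⟩, hK, hE,
    u, lam, ⟨hu, hmono, horth, htot⟩, hlam, fun J hJ C => hbig.equi J hJ C⟩
  · intro z hz w hw h
    obtain ⟨θ', r, γ, h1, h2, h3, h4, h5, -⟩ := hUT.deck z hz w hw h 0
    exact ⟨r, γ, h1, h2, h3, h4, h5⟩
  · intro p hp p' hp'
    rw [hUT.rel p hp p' hp']
    constructor
    · rintro ⟨r, γ, h1, h2, h3, h4, h5, h6⟩
      exact ⟨r, γ, ⟨h1, h2, h3, h4, h5⟩, h6⟩
    · rintro ⟨r, γ, ⟨h1, h2, h3, h4, h5⟩, h6⟩
      exact ⟨r, γ, h1, h2, h3, h4, h5, h6⟩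

end Pool.Agent.Results.MP_ed6ab2_an.ErgodicManyExceptional
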