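import Pool.Agent.H240.IX.Fin
import Pool.Agent.H240.IX.QL

/-!
# Intervals of quantum limits on a surface with ergodic geodesic flow

There is a closed connected surface `M` with a smooth Riemannian metric of nonpositive curvature, whose
curvature vanishes exactly on one simple closed geodesic `S` and whose geodesic flow is ergodic, with the
following property. Every ordered orthonormal basis `u 0, u 1, …` of smooth real eigenfunctions of the
Laplacian has uncountably many quantum limits (weak limits `ν` of subsequences of the probability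
measures `u j ^ 2 dA`). More precisely let `F` be a smooth function on `M` which depends only on the
distance from `S` in a fixed collar of `S`. Then the values `∫ F dν` for the quantum limits `ν` of the
basis fill the whole interval between the value of `F` on `S` (the value for complete localization on
the closed geodesic) and the mean value of `F` on `M` (the value for equidistribution).

How a surface is described. `Ω` is an open set of the plane with the smooth conformal metric
`exp (2 φ) |dz|²`, and `pr : Ω → M` is a continuous, open, surjective and locally injective map onto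
the compact metric space `M`; points with the same image are related by a holomorphic local isometry
over `M`. So `M` is a closed surface and the metric descends to `M`. The unit vectors at the points of
`Ω` are the pairs `(z, θ)`, the vector `exp (- φ z) exp (i θ)` at `z`; `P` is the unit tangent bundle of
`M`: two such pairs have the same image under `q` if and only if a local isometry over `M` maps one to
the other.

Ingredients of the proof. (1) For a metric with a flat cylinder and almost every parameter of a certain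
perturbation there are eigenfunctions `u` with `∫ F u² > t` for every `t` below the value of `F` on the
cylinder (as in my results `CompleteLocalization` and `ClosedGeodesicScar`); on average over the
parameter of the perturbation in the direction `F` the eigenfunctions are equidistributed (local Weyl
law, library `Pool.Graph.R_seed8.Y264`). (2) The abstract theorem `Pool.Agent.H240.IX.abs_win`: consider
among all small perturbations of the metric in the direction of `F` and of arbitrary functions off the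
collar those for which an eigenvector with eigenvalue above `Λ` has `∫ F u²` near `t`; by connectedness
of the eigenvectors along paths of metrics there is one. One of minimal multiplicity has the property
that *all* unit eigenvectors with this eigenvalue have `∫ F u²` near `t`: otherwise a path of
perturbations around it splits the eigenvalue but keeps the property. This uses that a product of two
eigenfunctions is not orthogonal to all functions off the collar (unique continuation, library
`Pool.Graph.R_pool_sql_team_seeded_3997aac3.Q73.NL.U`). (3) The property is stable under `C⁰` small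
perturbations of the metric, so the metrics can be chosen inductively, for a countable dense family of
functions `F` and all rational `t`, such that they converge smoothly; the flat cylinders shrink to a
closed geodesic (`Pool.Agent.H240.IX.Seq`, `Pool.Agent.H240.IX.Lim`). (4) The geodesic flow of the limit
metric is ergodic (`Pool.Agent.H240.CG.ErgA`, `Pool.Agent.H240.CG.ErgB`). Parts of the proof are due to
helper17, helper34, helper79, helper97, helper181, helper225, helper227, helper284, helper307,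
helper357, helper388, helper551, helper627, helper643, helper665, helper685, helper881, helper962.
-/

set_option autoImplicit false

open Set Filter Topology MeasureTheory
open scoped ContDiff

noncomputable section

namespace Pool.Agent.Results.MP_ed6ab2_an.IntervalOfLimits

/-- the partial derivative with respect to `x` -/
def px (φ : ℂ → ℝ) (z : ℂ) : ℝ := fderiv ℝ φ z 1

/-- the partial derivative with respect to `y` -/
def py (φ : ℂ → ℝ) (z : ℂ) : ℝ := fderiv ℝ φ z Complex.I

/-- the nonnegative Laplace-Beltrami operator of the metric `exp (2 φ) |dz|²` -/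
def lapl (φ v : ℂ → ℝ) (z : ℂ) : ℝ := -(Real.exp (-2 * φ z) * (px (px v) z + py (py v) z))

/-- the Gauss curvature of the metric `exp (2 φ) |dz|²` -/
def curvature (φ : ℂ → ℝ) (z : ℂ) : ℝ := lapl φ φ z

section

variable {M P : Type}

/-- `γ` is a holomorphic local isometry on the ball around `z` with radius `r`, over the surface, and
`γ z = w` -/
def LocIso (Ω : Set ℂ) (φ : ℂ → ℝ) (pr : ℂ → M) (r : ℝ) (γ : ℂ → ℂ) (z w : ℂ) : Prop :=
  0 < r ∧ Metric.ball z r ⊆ Ω ∧ DifferentiableOn ℂ γ (Metric.ball z r) ∧ γ z = w ∧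
    ∀ ζ ∈ Metric.ball z r, γ ζ ∈ Ω ∧ pr (γ ζ) = pr ζ ∧ deriv γ ζ ≠ 0 ∧
      φ (γ ζ) + Real.log ‖deriv γ ζ‖ = φ ζ

/-- `M` is a surface with a Riemannian metric which is covered by means of `pr` by the plane domain
`Ω` with the smooth metric `exp (2 φ) |dz|²` -/
structure IsSurface [TopologicalSpace M] (Ω : Set ℂ) (φ : ℂ → ℝ) (pr : ℂ → M) : Prop where
  domain : IsOpen Ω
  smooth : ContDiffOn ℝ ∞ φ Ω
  cont : ContinuousOn pr Ω
  open_map : ∀ O : Set ℂ, IsOpen O → O ⊆ Ω → IsOpen (pr '' O)
  surj : pr '' Ω = univ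
  loc_inj : ∀ z ∈ Ω, ∃ r : ℝ, 0 < r ∧ Metric.ball z r ⊆ Ω ∧ InjOn pr (Metric.ball z r)
  iso : ∀ z ∈ Ω, ∀ w ∈ Ω, pr z = pr w → ∃ (r : ℝ) (γ : ℂ → ℂ), LocIso Ω φ pr r γ z w

/-- the unit vectors `(z, θ)` (the vector `exp (- φ z) exp (i θ)` at `z`) at the points of `Ω` -/
def UV (Ω : Set ℂ) : Set (ℂ × ℝ) := {p | p.1 ∈ Ω}

/-- `P` is the unit tangent bundle of the surface and `q` maps the unit vectors at the points of `Ω`
to `P`: two unit vectors have the same image if and only if a local isometry over the surface maps one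
to the other -/
structure IsUnitTangent [TopologicalSpace P] (Ω : Set ℂ) (φ : ℂ → ℝ) (pr : ℂ → M)
    (q : ℂ × ℝ → P) : Prop where
  cont : ContinuousOn q (UV Ω)
  open_map : ∀ O : Set (ℂ × ℝ), IsOpen O → O ⊆ UV Ω → IsOpen (q '' O)
  surj : q '' UV Ω = univ
  rel : ∀ p ∈ UV Ω, ∀ p' ∈ UV Ω, (q p = q p' ↔ ∃ (r : ℝ) (γ : ℂ → ℂ),
    LocIso Ω φ pr r γ p.1 p'.1 ∧
      Complex.exp (p'.2 * Complex.I) * ‖deriv γ p.1‖ = Complex.exp (p.2 * Complex.I) * deriv γ p.1)

/-- `μ` is the area of the surface -/
def IsAreaM [MeasurableSpace M] (Ω : Set ℂ) (φ : ℂ → ℝ) (pr : ℂ → M) (μ : Measure M) : Prop :=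
  ∀ B : Set ℂ, MeasurableSet B → B ⊆ Ω → InjOn pr B →
    μ (pr '' B) = ∫⁻ z in B, ENNReal.ofReal (Real.exp (2 * φ z))

/-- `m` is the Liouville measure on the unit tangent bundle -/
def IsLiouville [MeasurableSpace P] (Ω : Set ℂ) (φ : ℂ → ℝ) (q : ℂ × ℝ → P) (m : Measure P) :
    Prop :=
  ∀ B : Set (ℂ × ℝ), MeasurableSet B → B ⊆ UV Ω → InjOn q B →
    m (q '' B) = ∫⁻ p in B, ENNReal.ofReal (Real.exp (2 * φ p.1))

/-- the geodesic vector field: `z' = exp (- φ) exp (i θ)`,
`θ' = exp (- φ) (- φ_x sin θ + φ_y cos θ)` -/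
def geod (φ : ℂ → ℝ) (p : ℂ × ℝ) : ℂ × ℝ :=
  (⟨Real.exp (-φ p.1) * Real.cos p.2, Real.exp (-φ p.1) * Real.sin p.2⟩,
    Real.exp (-φ p.1) * (-(px φ p.1) * Real.sin p.2 + py φ p.1 * Real.cos p.2))

/-- `F` is the geodesic flow (it is complete and smooth) -/
structure IsGeodesicFlow (Ω : Set ℂ) (φ : ℂ → ℝ) (F : ℝ → ℂ × ℝ → ℂ × ℝ) : Prop where
  maps : ∀ t, ∀ p ∈ UV Ω, F t p ∈ UV Ω
  zero : ∀ p ∈ UV Ω, F 0 p = p
  ode : ∀ t, ∀ p ∈ UV Ω, HasDerivAt (fun τ => F τ p) (geod φ (F t p)) t
  smooth : ContDiffOn ℝ ∞ (fun a : ℝ × (ℂ × ℝ) => F a.1 a.2) {a | a.2 ∈ UV Ω}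

/-- `t ↦ pr (x0 + i t)` is a simple closed geodesic of length `2π` of the metric, parametrised by the
arc length (the orbit of the unit vector `i` at `x0` under the geodesic flow `F`), and `S` is its image -/
structure IsClosedGeodesic (Ω : Set ℂ) (pr : ℂ → M) (F : ℝ → ℂ × ℝ → ℂ × ℝ) (x0 : ℝ) (S : Set M) :
    Prop where
  mem : ∀ z : ℂ, z.re = x0 → z ∈ Ω
  orbit : ∀ z : ℂ, z.re = x0 → ∀ t : ℝ, F t (z, Real.pi / 2) = (z + t * Complex.I, Real.pi / 2)
  closed : ∀ z w : ℂ, z.re = x0 → w.re = x0 →
    (pr z = pr w ↔ ∃ n : ℤ, w = z + n * (2 * Real.pi * Complex.I))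
  image : S = pr '' {z | z.re = x0}

/-- the geodesic flow on `P` is ergodic with respect to `m`: every invariant measurable set is null or
has a null complement -/
def IsErgodic [MeasurableSpace P] (Ω : Set ℂ) (q : ℂ × ℝ → P) (F : ℝ → ℂ × ℝ → ℂ × ℝ)
    (m : Measure P) : Prop :=
  ∀ A : Set P, MeasurableSet A → (∀ t, ∀ p ∈ UV Ω, (q (F t p) ∈ A ↔ q p ∈ A)) →
    m A = 0 ∨ m Aᶜ = 0

/-- `u` is a smooth real eigenfunction of the Laplacian of the surface with the eigenvalue `lam` -/
def IsEigenfunction (Ω : Set ℂ) (φ : ℂ → ℝ) (pr : ℂ → M) (lam : ℝ) (u : M → ℝ) : Prop :=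
  ContDiffOn ℝ ∞ (fun z => u (pr z)) Ω ∧
    ∀ z ∈ Ω, lapl φ (fun z => u (pr z)) z = lam * u (pr z)

/-- `u 0, u 1, …` is an orthonormal basis of `L²` of smooth real eigenfunctions of the Laplacian of the
surface, ordered so that the eigenvalues `lam 0 ≤ lam 1 ≤ …` increase; the last condition says that the
span of the functions `u j` is dense in `L²` -/
structure IsEigenbasis [MeasurableSpace M] (Ω : Set ℂ) (φ : ℂ → ℝ) (pr : ℂ → M) (μ : Measure M)
    (u : ℕ → M → ℝ) (lam : ℕ → ℝ) : Prop where
  eig : ∀ j, IsEigenfunction Ω φ pr (lam j) (u j)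
  mono : Monotone lam
  orth : ∀ i j, ∫ x, u i x * u j x ∂μ = if i = j then 1 else 0
  total : ∀ f : M → ℝ, MemLp f 2 μ → (∀ j, ∫ x, f x * u j x ∂μ = 0) → f =ᵐ[μ] 0

/-- the mean value of `f` on the surface -/
def mean [MeasurableSpace M] (μ : Measure M) (f : M → ℝ) : ℝ := (∫ x, f x ∂μ) / μ.real univ

/-- `pr` maps the strip `|Re z - x0| < δ` modulo `2πi` one to one into the surface, and the metric does
not depend on `Im z` in a smaller strip -/
structure IsCollar (Ω : Set ℂ) (φ : ℂ → ℝ) (pr : ℂ → M) (x0 δ : ℝ) : Prop where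
  pos : 0 < δ
  mem : ∀ z : ℂ, |z.re - x0| < δ → z ∈ Ω
  period : ∀ z w : ℂ, |z.re - x0| < δ → |w.re - x0| < δ →
    (pr z = pr w ↔ ∃ n : ℤ, w = z + n * (2 * Real.pi * Complex.I))
  rot : ∃ δ1 : ℝ, 0 < δ1 ∧ ∀ z w : ℂ, |z.re - x0| < δ1 → z.re = w.re → φ z = φ w

/-- `f` is a smooth function on the surface which in the collar `|Re z - x0| < δ` depends only on the
coordinate `Re z`: it is `p (Re z)`; so its value on the closed geodesic `Re z = x0` is `p x0` -/
structure IsCollarFunction (Ω : Set ℂ) (pr : ℂ → M) (x0 δ : ℝ) (f : M → ℝ) (p : ℝ → ℝ) : Prop where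
  smooth : ContDiffOn ℝ ∞ (fun z => f (pr z)) Ω
  collar : ∀ z : ℂ, |z.re - x0| < δ → f (pr z) = p z.re

/-- `ν` is a quantum limit of the basis: a probability measure which is the weak limit of a subsequence
of the measures `u j ^ 2 dA` -/
def IsQuantumLimit [TopologicalSpace M] [MeasurableSpace M] (μ : Measure M) (u : ℕ → M → ℝ)
    (ν : Measure M) : Prop :=
  IsProbabilityMeasure ν ∧ ∃ θ : ℕ → ℕ, StrictMono θ ∧ ∀ f : M → ℝ, Continuous f →
    Tendsto (fun n => ∫ x, f x * (u (θ n) x) ^ 2 ∂μ) atTop (𝓝 (∫ x, f x ∂ν))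

end

/-- **Intervals of quantum limits.** There are a closed connected surface `M` (with the unit tangent
bundle `P`) with a smooth Riemannian metric of nonpositive curvature and a closed set `S` such that: `S`
is a simple closed geodesic (with the collar `|Re z - x0| < δ`); the curvature vanishes at a point if and
only if the point is in `S`; the geodesic flow is ergodic with respect to the Liouville measure; there is
an ordered orthonormal basis of smooth real eigenfunctions of the Laplacian; and every such basis `u j`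
has the following properties. (1) Let `f` be a smooth function on `M` which in the collar depends only on
the coordinate `Re z`. Then every number `t` in the closed interval between the value of `f` on `S` and
the mean value of `f` on `M` is equal to `∫ f dν` for some quantum limit `ν` of the basis. (2) The set of
the quantum limits of the basis is uncountable. Moreover there is such a function `f` which is positive
outside of `S` and vanishes on `S`. -/
theorem result : ∃ (M P : Type) (_ : MetricSpace M) (_ : CompactSpace M) (_ : ConnectedSpace M)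
    (_ : MeasurableSpace M) (_ : BorelSpace M) (_ : MetricSpace P) (_ : CompactSpace P)
    (_ : MeasurableSpace P) (_ : BorelSpace P) (Ω : Set ℂ) (φ : ℂ → ℝ) (pr : ℂ → M)
    (q : ℂ × ℝ → P) (μ : Measure M) (m : Measure P) (F : ℝ → ℂ × ℝ → ℂ × ℝ) (x0 δ : ℝ) (S : Set M),
    IsSurface Ω φ pr ∧ IsUnitTangent Ω φ pr q ∧ IsAreaM Ω φ pr μ ∧ IsLiouville Ω φ q m ∧
    IsGeodesicFlow Ω φ F ∧ IsClosedGeodesic Ω pr F x0 S ∧ IsClosed S ∧ μ S = 0 ∧
    (∀ z ∈ Ω, curvature φ z ≤ 0) ∧ (∀ z ∈ Ω, curvature φ z = 0 ↔ pr z ∈ S) ∧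
    IsErgodic Ω q F m ∧ IsCollar Ω φ pr x0 δ ∧
    (∃ h : M → ℝ, IsCollarFunction Ω pr x0 δ h (fun x => (x - x0) ^ 2) ∧
      ∀ x, 0 ≤ h x ∧ (h x = 0 ↔ x ∈ S)) ∧
    (∃ (u : ℕ → M → ℝ) (lam : ℕ → ℝ), IsEigenbasis Ω φ pr μ u lam) ∧
    ∀ (u : ℕ → M → ℝ) (lam : ℕ → ℝ), IsEigenbasis Ω φ pr μ u lam →
      (∀ (f : M → ℝ) (p : ℝ → ℝ), IsCollarFunction Ω pr x0 δ f p →
        ∀ t ∈ uIcc (p x0) (mean μ f), ∃ ν : Measure M, IsQuantumLimit μ u ν ∧ ∫ x, f x ∂ν = t) ∧
      ¬ {ν : Measure M | IsQuantumLimit μ u ν}.Countable := by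
  obtain ⟨M, P, i1, i2, i3, i4, i5, i6, i7, i8, i9, Ω, φ, pr, q, μ, m, F, G, x0, δ, δ', hδ, hδ',
    hsub, hrot, hper, hG0, hG1, hUT, hA, hfin, hm, hF, hline, hK, hK0, hE, hcl, hnull, hbas,
    ⟨h, hh1, hh2, hh3⟩, hall⟩ := Pool.Agent.H240.IX.finI
  have hline' : ∀ z : ℂ, z.re = x0 → |z.re - x0| < δ' := fun z hz => by
    rw [hz, sub_self, abs_zero]
    exact hδ.trans hδ'
  have hcont : ∀ f : M → ℝ, ContDiffOn ℝ ∞ (fun z => f (pr z)) Ω → Continuous f := by
    intro f hf
    refine continuous_def.2 fun U hU => ?_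
    have h1 : IsOpen (Ω ∩ (fun z => f (pr z)) ⁻¹' U) :=
      hf.continuousOn.isOpen_inter_preimage hUT.opn hU
    have h2 : f ⁻¹' U = pr '' (Ω ∩ (fun z => f (pr z)) ⁻¹' U) := by
      ext x
      constructor
      · intro hx
        obtain ⟨z, hz, rfl⟩ : x ∈ pr '' Ω := by rw [hUT.surjp]; trivial
        exact ⟨z, ⟨hz, hx⟩, rfl⟩
      · rintro ⟨z, ⟨-, hz⟩, rfl⟩
        exact hz
    rw [h2]
    exact hUT.opnp _ h1 inter_subset_left
  refine ⟨M, P, i1, i2, i3, i4, i5, i6, i7, i8, i9, Ω, φ, pr, q, μ, m, F, x0, δ',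
    pr '' {z | z.re = x0},
    ⟨hUT.opn, hUT.smooth, hUT.contp, hUT.opnp, hUT.surjp, hUT.injp, ?_⟩,
    ⟨hUT.contq, hUT.opnq, hUT.surjq, ?_⟩, hA, hm, ⟨hF.maps, hF.zero, hF.ode, hF.smooth⟩,
    ⟨fun z hz => hsub z (hline' z hz), hline,
      fun z w hz hw => hper z w (hline' z hz) (hline' w hw), rfl⟩, hcl, hnull, hK, hK0, hE,
    ⟨hδ.trans hδ', hsub, hper, δ, hδ, fun z w hz hzw => ?_⟩, ⟨h, ⟨hh1, hh2⟩, hh3⟩, ?_,
    fun u lam hu => ?_⟩
  · intro z hz w hw h
    obtain ⟨θ', r, γ, h1, h2, h3, h4, h5, -⟩ := hUT.deck z hz w hw h 0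
    exact ⟨r, γ, h1, h2, h3, h4, h5⟩
  · intro p hp p' hp'
    rw [hUT.rel p hp p' hp']
    constructor
    · rintro ⟨r, γ, h1, h2, h3, h4, h5, h6⟩
      exact ⟨r, γ, ⟨h1, h2, h3, h4, h5⟩, h6⟩
    · rintro ⟨r, γ, ⟨h1, h2, h3, h4, h5⟩, h6⟩
      exact ⟨r, γ, h1, h2, h3, h4, h5, h6⟩
  · rw [hrot z hz, hrot w (by rw [← hzw]; exact hz), hzw]
  · obtain ⟨u, lam, hu⟩ := hbas
    exact ⟨u, lam, hu.eig, hu.mono, hu.orth, hu.total⟩
  · obtain ⟨-, hint, hone, hval⟩ := hall u lam ⟨hu.eig, hu.mono, hu.orth, hu.total⟩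
    -- the values of the quantum limits
    have hql : ∀ (f : M → ℝ) (p : ℝ → ℝ), IsCollarFunction Ω pr x0 δ' f p →
        ∀ t ∈ uIcc (p x0) (mean μ f), ∃ ν : Measure M, IsQuantumLimit μ u ν ∧
          ∫ x, f x ∂ν = t := by
      intro f p hf t ht
      obtain ⟨θ1, hθ1, hlim⟩ := hval f p hf.smooth hf.collar t ht
      obtain ⟨θ2, ν, hθ2, hν, hν2⟩ := Pool.Agent.H240.IX.ql_ex (w := fun n x => (u (θ1 n) x) ^ 2)
        (fun n x => sq_nonneg _) (fun n => hint _) (fun n => hone _)
      refine ⟨ν, ⟨hν, fun n => θ1 (θ2 n), hθ1.comp hθ2, fun g hg => hν2 g hg⟩, ?_⟩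
      exact tendsto_nhds_unique (hν2 f (hcont f hf.smooth)) (hlim.comp hθ2.tendsto_atTop)
    refine ⟨hql, fun hc => ?_⟩
    -- the mean value of `h` is positive
    have hμne : μ univ ≠ 0 := by
      intro hcon
      rw [Measure.measure_univ_eq_zero] at hcon
      have h4 := hone 0
      rw [hcon, integral_zero_measure] at h4
      exact zero_ne_one h4
    have hμp : 0 < μ.real univ := ENNReal.toReal_pos hμne (measure_ne_top _ _)
    have hhc : Continuous h := hcont h hh1
    have hhp : 0 < mean μ h := by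
      refine div_pos ?_ hμp
      rw [integral_pos_iff_support_of_nonneg (fun x => (hh3 x).1)
        (hhc.integrable_of_hasCompactSupport (HasCompactSupport.of_compactSpace _))]
      have h1 : Function.support h = (pr '' {z | z.re = x0})ᶜ := by
        ext x
        rw [Function.mem_support, mem_compl_iff, ← show h x = 0 ↔ x ∈ pr '' {z | z.re = x0} from
          (hh3 x).2]
      rw [h1]
      refine pos_iff_ne_zero.2 fun hcon => hμne ?_
      have h2 : μ univ ≤ μ (pr '' {z | z.re = x0}) + μ (pr '' {z | z.re = x0})ᶜ := by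
        rw [← union_compl_self (pr '' {z | z.re = x0})]
        exact measure_union_le _ _
      rw [show μ (pr '' {z | z.re = x0}) = 0 from hnull, hcon, add_zero] at h2
      exact nonpos_iff_eq_zero.1 h2
    -- the values are uncountable
    have h1 : Icc 0 (mean μ h) ⊆ (fun ν : Measure M => ∫ x, h x ∂ν) ''
        {ν : Measure M | IsQuantumLimit μ u ν} := by
      intro t ht
      obtain ⟨ν, hν1, hν2⟩ := hql h (fun x => (x - x0) ^ 2) ⟨hh1, hh2⟩ t (by
        show t ∈ uIcc ((x0 - x0) ^ 2) (mean μ h)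
        rw [sub_self, zero_pow two_ne_zero, uIcc_of_le hhp.le]
        exact ht)
      exact ⟨ν, hν1, hν2⟩
    have h2 := (hc.image (fun ν : Measure M => ∫ x, h x ∂ν)).mono h1
    rw [Cardinal.Real.Icc_countable_iff] at h2
    linarith

end Pool.Agent.Results.MP_ed6ab2_an.IntervalOfLimits
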